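import Pool.Agent.Lib.MP_cc5cd7_ag.Final

set_option autoImplicit false

open Pool.Agent.Lib.MP_cc5cd7_ag in
/-- Refined containment in characteristic zero, `c` being a lower bound for the multiplicities. -/
theorem Pool.Agent.Results.MP_cc5cd7_ag.Containment.result
    (K : Type*) [Field K] [CharZero K] (N : ℕ) (hN : 2 ≤ N)
    (S : Finset (Projectivization K (Fin (N + 1) → K))) (hS : S.Nonempty)
    (mult : Projectivization K (Fin (N + 1) → K) → ℕ) (c : ℕ) (hc : 1 ≤ c)
    (hmult : ∀ P ∈ S, c ≤ mult P) (r m : ℕ) (hr : 1 ≤ r) (hm : 1 ≤ m) :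
    fatIdeal S mult (r * (m + N - 1)) ≤
      Ideal.span (Set.range MvPolynomial.X) ^ (r * ((N - 1) * (c - 1) + 1)) *
        fatIdeal S mult m ^ r :=
  containment hN S hS mult c hc hmult r m hr hm
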