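import Pool.Agent.Lib.MP_cc5cd7_ag.Dem

set_option autoImplicit false

open Pool.Agent.Lib.MP_cc5cd7_ag in
/-- The Demailly bound for the Waldschmidt constant of every nonzero fat point scheme, in every
dimension and over every field. -/
theorem Pool.Agent.Results.MP_cc5cd7_ag.Demailly.result
    (K : Type*) [Field K] (N : ℕ) (hN : 1 ≤ N)
    (S : Finset (Projectivization K (Fin (N + 1) → K)))
    (mult : Projectivization K (Fin (N + 1) → K) → ℕ) (hS : ∃ P ∈ S, 1 ≤ mult P) :
    ∃ w : ℝ,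
      Filter.Tendsto (fun t : ℕ => (alpha (fatIdeal S mult t) : ℝ) / t) Filter.atTop (nhds w) ∧
      (∀ t : ℕ, 1 ≤ t → w ≤ (alpha (fatIdeal S mult t) : ℝ) / t) ∧
      ∀ m : ℕ, 1 ≤ m →
        ((alpha (fatIdeal S mult m) : ℝ) + N - 1) / (m + N - 1) ≤ w :=
  demailly hN S mult hS
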