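import Pool.Agent.Lib.MP_cc5cd7_ag.Scale

set_option autoImplicit false

open Pool.Agent.Lib.MP_cc5cd7_ag in
/-- Refined containment over every field, from a lower bound for the initial degree. -/
theorem Pool.Agent.Results.MP_cc5cd7_ag.Scaling.result
    (K : Type*) [Field K] (N : ℕ) (hN : 2 ≤ N)
    (S : Finset (Projectivization K (Fin (N + 1) → K))) (hS : S.Nonempty)
    (mult : Projectivization K (Fin (N + 1) → K) → ℕ) (hmult : ∀ P ∈ S, 1 ≤ mult P)
    (r m j E : ℕ) (hr : 1 ≤ r) (hE : 1 ≤ E)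
    (h : ∀ P ∈ S, (r * E - 1) * ((r * (m + N - 1) + j) * mult P) ≤
      (j * mult P + r * (N - 1) * (mult P - 1)) * alpha (fatIdeal S mult (r * (m + N - 1) + j))) :
    fatIdeal S mult (r * (m + N - 1) + j) ≤
      Ideal.span (Set.range MvPolynomial.X) ^ (r * E) * fatIdeal S mult m ^ r :=
  scale hN S hS mult hmult r m j E hr hE h
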